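import Pool.Agent.Y321.Kap.Any

/-!
# MP_d62ce9_gt: groups with conical limit sets of dimension arbitrarily close to `1/2` which are not
classical Schottky-type groups

Stronger form of `NotClassical` (dimension less than one).
-/

set_option autoImplicit false

namespace Pool.Agent.Results.MP_d62ce9_gt.NotClassicalNearHalf

open Pool.Agent.Helper97.Kap

/-- For every `ε > 0` there is a discrete, torsion-free, finitely generated group `G` of isometries
of `ℍ⁴` without `ℤ²` (in fact free of rank two), whose conical limit set has Hausdorff dimension at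
most `1/2 + ε`, whose Poincaré series converges at the exponent `1/2 + ε`, and which is not a
classical Schottky-type group. -/
theorem result (ε : NNReal) (hε : 0 < ε) : ∃ G : Subgroup (Hyp 4 ≃ᵢ Hyp 4),
    IsDiscreteGroup G ∧ IsTorsionFreeGroup G ∧ IsFinGen G ∧ HasNoZSquare G ∧ IsFreeOfRankTwo G ∧
    dimH (conicalLimitSet G) ≤ ((1 / 2 + ε : NNReal) : ENNReal) ∧
    dimH (conicalLimitSet G) < 1 ∧
    ∑' g : G, ENNReal.ofReal (Real.exp (-((1 / 2 + ε : NNReal) : ℝ) *
      dist (origin 4) ((g : Hyp 4 ≃ᵢ Hyp 4) (origin 4)))) ≠ ⊤ ∧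
    ¬ IsClassicalSchottky G := by
  set s : NNReal := min (1 / 2 + ε) (3 / 4) with hs
  have hs1 : (1 / 2 : ℝ) < (s : ℝ) := by
    have h0 : (0 : ℝ) < (ε : ℝ) := by exact_mod_cast hε
    rw [hs, NNReal.coe_min, lt_min_iff]
    constructor
    · push_cast
      linarith
    · push_cast
      norm_num
  have hs2 : (s : ℝ) ≤ 3 / 4 := by
    rw [hs, NNReal.coe_min]
    refine (min_le_right _ _).trans ?_
    push_cast
    exact le_rfl
  have hsle : s ≤ 1 / 2 + ε := min_le_left _ _
  obtain ⟨P, hP⟩ := Pool.Agent.Y321.Kap.exists_par hs1 hs2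
  have hsum := Pool.Agent.Y321.Kap.poincare hs1 P hP
  have hpos : (0 : NNReal) < s := by
    have : (0 : ℝ) < (s : ℝ) := by linarith
    exact_mod_cast this
  have hcount : Countable P.G := by
    obtain ⟨e⟩ := P.equiv_free
    exact e.symm.injective.countable
  obtain ⟨e⟩ := P.equiv_free
  have hdim : dimH (conicalLimitSet P.G) ≤ ((s : NNReal) : ENNReal) :=
    dimH_conical_le P.G s hpos hsum
  have hfree : IsFreeGroup P.G := IsFreeGroup.ofMulEquiv e
  refine ⟨P.G, discrete_of_poincare P.G s hpos hsum, ?_, ?_, ?_, ?_, ?_, ?_, ?_, ?_⟩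
  · intro g hg k hk h
    have h1 : (⟨g, hg⟩ : P.G) ^ k = 1 := Subtype.ext h
    have h2 : (e.symm ⟨g, hg⟩) ^ k = 1 := by rw [← map_pow, h1, map_one]
    have h3 : e.symm ⟨g, hg⟩ = 1 := (pow_eq_one_iff_left hk.ne').mp h2
    have h4 : (⟨g, hg⟩ : P.G) = 1 := by
      rw [← e.apply_symm_apply ⟨g, hg⟩, h3, map_one]
    exact congrArg Subtype.val h4
  · unfold IsFinGen
    rw [Group.fg_iff_subgroup_fg]
    classical
    refine ⟨insert P.g₁ {P.g₂}, ?_⟩
    unfold Par.G
    rw [Finset.coe_insert, Finset.coe_singleton]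
  · rintro ⟨f, hf⟩
    exact no_Z2 f hf
  · exact ⟨(FreeGroup.freeGroupCongr finTwoEquiv).trans e⟩
  · refine hdim.trans ?_
    exact_mod_cast hsle
  · refine lt_of_le_of_lt hdim ?_
    have h1 : s < 1 := by
      have : (s : ℝ) < 1 := by linarith
      exact_mod_cast this
    exact_mod_cast h1
  · refine ne_top_of_le_ne_top hsum (ENNReal.tsum_le_tsum fun g => ?_)
    apply ENNReal.ofReal_le_ofReal
    apply Real.exp_le_exp.mpr
    have h1 : (s : ℝ) ≤ ((1 / 2 + ε : NNReal) : ℝ) := by exact_mod_cast hsle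
    have h2 : 0 ≤ dist (origin 4) ((g : Hyp 4 ≃ᵢ Hyp 4) (origin 4)) := dist_nonneg
    nlinarith
  · intro h
    obtain ⟨k, u, v, hT⟩ := tiling_of_schottky h
    exact P.no_tiling hT

end Pool.Agent.Results.MP_d62ce9_gt.NotClassicalNearHalf
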